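import Mathlib
import Pool.Agent.W515.LDFinal

/-!
# Spaces of logarithmic differentials with one zero at infinity: the divisibility fails

For every odd prime `p` and every algebraically closed field `k` of characteristic `p` there are
spaces `L_{m+1,2}` for arbitrarily large `m` such that `m + 1` is prime to `p - 1`; in particular
`p (p - 1)` does not divide `m + 1`.  (For `p = 3` the construction gives for instance `m + 1 = 63`.)

The construction.  Let `S = z ^ p`, `T = τ z ^ p + 1` with `τ` not in the prime field,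
`N` the product of the `p` polynomials `T - c S` (`c` in the prime field) and
`V = S + N + S N (z + z ^ (p r))`.  The derivative of `V` is `S N`, and the logarithmic forms are
the sums of the `h (w) dlog (V - w)`, where `w` runs through the span of `S`, `T` over the prime
field and `h` is a linear form on this span.
-/

set_option autoImplicit false

namespace Pool.Agent.Results.MP_f76cdc_ag.DivisibilityFails

/-- The order of the rational function `g` at the point `z = a` of the affine line. -/
noncomputable def ordAt {k : Type*} [Field k] (a : k) (g : RatFunc k) : ℤ :=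
  (g.num.rootMultiplicity a : ℤ) - (g.denom.rootMultiplicity a : ℤ)

/-- The order of the rational function `g` at the point `z = ∞`. -/
noncomputable def ordInfty {k : Type*} [Field k] (g : RatFunc k) : ℤ := -g.intDegree

/-- The differential `dz`. Meromorphic differentials on the projective line over `k` are elements
of the module of Kähler differentials of the field `k(z)` over `k`. -/
noncomputable def dz (k : Type*) [Field k] : Ω[RatFunc k⁄k] :=
  KaehlerDifferential.D k (RatFunc k) RatFunc.X

/-- `ω` is logarithmic: `ω = df / f` for a nonzero rational function `f`. -/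
def IsLogarithmic {k : Type*} [Field k] (ω : Ω[RatFunc k⁄k]) : Prop :=
  ∃ f : RatFunc k, f ≠ 0 ∧ ω = f⁻¹ • KaehlerDifferential.D k (RatFunc k) f

/-- `ω = g dz` is nonzero, it has no zero on the affine line, and its order at `∞`, which is
`ord_∞ (g) - 2`, is equal to `n`. -/
def OnlyZeroAtInfty {k : Type*} [Field k] (ω : Ω[RatFunc k⁄k]) (n : ℤ) : Prop :=
  ∃ g : RatFunc k, g ≠ 0 ∧ ω = g • dz k ∧ (∀ a : k, ordAt a g ≤ 0) ∧ ordInfty g - 2 = n

/-- `V` is a space `L_{m+1,n}`: an `n`-dimensional space of meromorphic differentials on the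
projective line over the prime field, all nonzero elements of which are logarithmic, have no
zeros on the affine line and vanish at `∞` to the order `m - 1`. -/
structure IsSpaceL (p : ℕ) [Fact p.Prime] (k : Type*) [Field k] [Algebra (ZMod p) k] (m n : ℕ)
    (V : Submodule (ZMod p) (Ω[RatFunc k⁄k])) : Prop where
  dim : Module.finrank (ZMod p) V = n
  log : ∀ ω ∈ V, ω ≠ 0 → IsLogarithmic ω
  zero : ∀ ω ∈ V, ω ≠ 0 → OnlyZeroAtInfty ω ((m : ℤ) - 1)

open Polynomial in
lemma ordAt_inv {k : Type*} [Field k] (a : k) (P : k[X]) (hP : P ≠ 0) :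
    ordAt a (algebraMap k[X] (RatFunc k) P)⁻¹ ≤ 0 := by
  have h1 : ((algebraMap k[X] (RatFunc k) P)⁻¹).num ∣ 1 := by
    have h := RatFunc.num_div_dvd (1 : k[X]) hP
    rwa [map_one, one_div] at h
  have h2 : rootMultiplicity a ((algebraMap k[X] (RatFunc k) P)⁻¹).num = 0 := by
    apply rootMultiplicity_eq_zero
    intro h3
    have h4 := h3.dvd h1
    rw [IsRoot, eval_one] at h4
    exact one_ne_zero h4
  rw [ordAt, h2]
  simp

/-- For every odd prime `p`, every algebraically closed field `k` of characteristic `p` (that is,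
with a structure of algebra over the field with `p` elements) and every `M` there is an `m ≥ M`
such that a space `L_{m+1,2}` exists but `m + 1` is prime to `p - 1` and, in particular, is not
divisible by `p ^ (2 - 1) * (p - 1)`. -/
theorem result (p : ℕ) [Fact p.Prime] (hp : p ≠ 2) (k : Type*) [Field k] [IsAlgClosed k]
    [Algebra (ZMod p) k] (M : ℕ) :
    ∃ m : ℕ, M ≤ m ∧ 1 ≤ m ∧ (∃ V : Submodule (ZMod p) (Ω[RatFunc k⁄k]), IsSpaceL p k m 2 V) ∧
      Nat.Coprime (m + 1) (p - 1) ∧ ¬ p ^ (2 - 1) * (p - 1) ∣ m + 1 := by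
  have hp2 := (Fact.out : p.Prime).two_le
  obtain ⟨q, rfl⟩ : ∃ q, p = q + 1 := ⟨p - 1, by omega⟩
  have hq : 2 ≤ q := by omega
  have : Infinite k := IsAlgClosed.instInfinite
  obtain ⟨τ, hτ⟩ : ∃ τ : k, ∀ c : ZMod (q + 1), τ ≠ algebraMap (ZMod (q + 1)) k c := by
    obtain ⟨τ, hτ⟩ := Set.Finite.exists_notMem
      (Set.finite_range (algebraMap (ZMod (q + 1)) k))
    exact ⟨τ, fun c hc => hτ ⟨c, hc.symm⟩⟩
  -- the number `m + 1` is `d`
  obtain ⟨u, hu⟩ : ∃ u, u + 1 = q * (q + (M + 1) + 1) := ⟨q * (q + (M + 1) + 1) - 1, by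
    have : 0 < q * (q + (M + 1) + 1) := by positivity
    omega⟩
  have hdeg : ∀ n : ℕ, n + (q + 1) ^ 3 =
      (q + 1) * (q + 1 - 1) * ((q + 1) + (q + 1) * (q + 1) + (q + 1) * (M + 1)) →
      n = (q + 1) ^ 2 * u := by
    intro n hn
    rw [Nat.add_sub_cancel] at hn
    have h1 : (q + 1) * q * ((q + 1) + (q + 1) * (q + 1) + (q + 1) * (M + 1)) =
        (q + 1) ^ 2 * (q * (q + (M + 1) + 1)) + (q + 1) ^ 2 * q := by ring
    rw [h1, ← hu] at hn
    have h2 : (q + 1) ^ 2 * (u + 1) + (q + 1) ^ 2 * q = (q + 1) ^ 2 * u + (q + 1) ^ 3 := by ring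
    rw [h2] at hn
    exact Nat.add_right_cancel hn
  have hum : M + 1 ≤ u := by nlinarith
  have hmd : M + 1 ≤ (q + 1) ^ 2 * u :=
    hum.trans (Nat.le_mul_of_pos_left u (by positivity))
  have hcop : Nat.Coprime ((q + 1) ^ 2 * u) q := by
    apply Nat.Coprime.mul_left
    · apply Nat.Coprime.pow_left
      simp
    · have h1 : Nat.Coprime u (u + 1) := by simp
      rw [hu] at h1
      exact Nat.Coprime.coprime_mul_right_right h1
  obtain ⟨m, hm⟩ : ∃ m, m + 1 = (q + 1) ^ 2 * u := ⟨(q + 1) ^ 2 * u - 1, by omega⟩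
  refine ⟨m, by omega, ?_, ?_, ?_, ?_⟩
  · nlinarith
  · refine ⟨LinearMap.range (W515.LD.form (M + 1) τ), ?_, ?_, ?_⟩
    · rw [LinearMap.finrank_range_of_inj (W515.LD.form_injective (by omega) τ hτ)]
      simp
    · rintro ω ⟨h, rfl⟩ -
      obtain ⟨f, hf, hf2⟩ := W515.LD.form_log (by omega : 0 < M + 1) τ hτ h
      exact ⟨f, hf, hf2⟩
    · rintro ω ⟨h, rfl⟩ h0
      have hh : h ≠ 0 := by
        rintro rfl
        exact h0 (map_zero _)
      obtain ⟨P, hP0, hP, hP2⟩ := W515.LD.form_eq (by omega : 0 < M + 1) τ hτ h hh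
      refine ⟨(algebraMap (Polynomial k) (RatFunc k) P)⁻¹, ?_, hP2, fun a => ordAt_inv a P hP0, ?_⟩
      · rw [ne_eq, inv_eq_zero, FaithfulSMul.algebraMap_eq_zero_iff]
        exact hP0
      · rw [ordInfty, RatFunc.intDegree_inv, RatFunc.intDegree_polynomial, hdeg _ hP, ← hm]
        push_cast
        ring
  · rw [hm, Nat.add_sub_cancel]
    exact hcop
  · rw [hm, Nat.add_sub_cancel]
    intro h1
    have h2 : q ∣ (q + 1) ^ 2 * u := (dvd_mul_left _ _).trans h1
    have h3 : q = 1 := Nat.Coprime.eq_one_of_dvd hcop.symm h2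
    omega

end Pool.Agent.Results.MP_f76cdc_ag.DivisibilityFails
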